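import Pool.Agent.W475.BG.Inst
import Pool.Agent.W174.HF.NF1
import Pool.Agent.W45.HF.NF2

set_option autoImplicit false

/-! # ECI: newforms of weight two as data of degree two -/

namespace Pool.Agent.W930.BG

open Complex MeasureTheory Filter Topology UpperHalfPlane MatrixGroups CongruenceSubgroup
open Pool.Agent.W475.BH (nz PP)
open Pool.Agent.W475.BG
open Pool.Agent.W169.HF (coef IsForm IsCompleted)
open scoped ComplexConjugate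

theorem completed_unique {N : ℕ} {f : CuspForm (Gamma0 N : Subgroup (GL (Fin 2) ℝ)) 2}
    {Λ Λ' : ℂ → ℂ} (h : IsCompleted f Λ) (h' : IsCompleted f Λ') : Λ = Λ' := by
  have hev : Λ =ᶠ[𝓝 (3 : ℂ)] Λ' := by
    have hopen : IsOpen {s : ℂ | 2 < s.re} := isOpen_lt continuous_const Complex.continuous_re
    filter_upwards [hopen.mem_nhds (show (3 : ℂ) ∈ {s : ℂ | 2 < s.re} by simp; norm_num)] with s hs
    rw [h.2 s hs, h'.2 s hs]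
  exact AnalyticOnNhd.eq_of_eventuallyEq (fun z _ => h.1.analyticAt z)
    (fun z _ => h'.1.analyticAt z) hev

/-- The growth of the coefficients. -/
theorem growth {N : ℕ} [NeZero N] (f : CuspForm (Gamma0 N : Subgroup (GL (Fin 2) ℝ)) 2) (w : ℝ)
    (hf : IsForm N f w) : ∃ A : ℝ, 0 ≤ A ∧ ∀ n : ℕ, 1 ≤ n →
      ‖coef f n / ((Real.sqrt n : ℝ) : ℂ)‖ ≤ (n : ℝ) ^ A := by
  obtain ⟨-, -, hsum, -⟩ := Pool.Agent.W45.HF.nf2 N f w hf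
  have h1 := hsum 2 (by norm_num)
  obtain ⟨C, hC⟩ : ∃ C : ℝ, ∀ n : ℕ,
      ‖coef f (n + 1) * ((n + 1 : ℕ) : ℂ) ^ (-((2 : ℂ) + 1 / 2))‖ ≤ C :=
    ⟨_, fun n => h1.le_tsum n (fun _ _ => norm_nonneg _)⟩
  obtain ⟨k, hk⟩ := pow_unbounded_of_one_lt C (show (1 : ℝ) < 2 by norm_num)
  refine ⟨((k + 3 : ℕ) : ℝ), Nat.cast_nonneg _, fun n hn => ?_⟩
  rw [Real.rpow_natCast]
  rcases Nat.eq_or_lt_of_le hn with h2 | h2
  · rw [← h2]
    simp [hf.one]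
  · obtain ⟨m, rfl⟩ : ∃ m, n = m + 1 := ⟨n - 1, by omega⟩
    have h3 := hC m
    have hpos : (0 : ℝ) < ((m + 1 : ℕ) : ℝ) := by positivity
    rw [norm_mul, show ((m + 1 : ℕ) : ℂ) = (((m + 1 : ℕ) : ℝ) : ℂ) by push_cast; rfl,
      Complex.norm_cpow_eq_rpow_re_of_pos hpos] at h3
    have h4 : (-((2 : ℂ) + 1 / 2)).re = -(5 / 2) := by norm_num
    rw [h4, Real.rpow_neg hpos.le, ← div_eq_mul_inv, div_le_iff₀ (by positivity)] at h3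
    have hsq : 1 ≤ Real.sqrt ((m + 1 : ℕ) : ℝ) := by
      rw [Real.one_le_sqrt]
      exact_mod_cast hn
    have h5 : ‖coef f (m + 1) / ((Real.sqrt ((m + 1 : ℕ) : ℝ) : ℝ) : ℂ)‖ ≤ ‖coef f (m + 1)‖ := by
      rw [norm_div, Complex.norm_real, Real.norm_of_nonneg (Real.sqrt_nonneg _)]
      exact div_le_self (norm_nonneg _) hsq
    refine h5.trans (h3.trans ?_)
    have h6 : ((m + 1 : ℕ) : ℝ) ^ (5 / 2 : ℝ) ≤ ((m + 1 : ℕ) : ℝ) ^ 3 := by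
      rw [← Real.rpow_natCast]
      exact Real.rpow_le_rpow_of_exponent_le (by exact_mod_cast hn) (by norm_num)
    have h7 : (2 : ℝ) ^ k ≤ ((m + 1 : ℕ) : ℝ) ^ k :=
      pow_le_pow_left₀ (by norm_num) (by exact_mod_cast h2) k
    calc C * ((m + 1 : ℕ) : ℝ) ^ (5 / 2 : ℝ) ≤ 2 ^ k * ((m + 1 : ℕ) : ℝ) ^ (5 / 2 : ℝ) :=
          mul_le_mul_of_nonneg_right hk.le (by positivity)
      _ ≤ ((m + 1 : ℕ) : ℝ) ^ k * ((m + 1 : ℕ) : ℝ) ^ 3 :=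
          mul_le_mul h7 h6 (by positivity) (by positivity)
      _ = ((m + 1 : ℕ) : ℝ) ^ (k + 3) := by rw [pow_add]

/-- The constants. -/
theorem const_eq {N : ℕ} (hN : 0 < N) (s : ℂ) :
    ((2 * (N : ℝ) ^ (-(1 / 4) : ℝ) : ℝ) : ℂ) *
        (((Real.sqrt N / (2 * Real.pi) : ℝ) : ℂ) ^ (s + 1 / 2) * Complex.Gamma (s + 1 / 2)) =
      ((Real.sqrt N : ℝ) : ℂ) ^ s * (Gammaℝ (s + 1 / 2) * Gammaℝ (s + 3 / 2)) := by
  have hNr : (0 : ℝ) < N := by exact_mod_cast hN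
  have hsq : (0 : ℝ) < Real.sqrt N := Real.sqrt_pos.2 hNr
  have hsq0 : ((Real.sqrt N : ℝ) : ℂ) ≠ 0 := by exact_mod_cast hsq.ne'
  have h1 : Gammaℝ (s + 1 / 2) * Gammaℝ (s + 3 / 2) = Gammaℂ (s + 1 / 2) := by
    rw [show s + 3 / 2 = (s + 1 / 2) + 1 by ring]
    exact Gammaℝ_mul_Gammaℝ_add_one _
  rw [h1, Gammaℂ_def]
  have h2 : ((Real.sqrt N / (2 * Real.pi) : ℝ) : ℂ) ^ (s + 1 / 2) =
      ((Real.sqrt N : ℝ) : ℂ) ^ (s + 1 / 2) * (2 * (Real.pi : ℂ)) ^ (-(s + 1 / 2)) := by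
    rw [div_eq_mul_inv, Complex.ofReal_mul, Complex.mul_cpow_ofReal_nonneg hsq.le (by positivity),
      Complex.cpow_neg]
    congr 1
    rw [Complex.ofReal_inv, Complex.inv_cpow _ _ ?_]
    · push_cast; rfl
    · rw [Complex.arg_ofReal_of_nonneg (by positivity)]
      exact Real.pi_pos.ne
  have h3 : ((Real.sqrt N : ℝ) : ℂ) ^ (s + 1 / 2) =
      ((Real.sqrt N : ℝ) : ℂ) ^ s * (((N : ℝ) ^ (1 / 4 : ℝ) : ℝ) : ℂ) := by
    rw [Complex.cpow_add _ _ hsq0]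
    congr 1
    rw [show (1 / 2 : ℂ) = ((1 / 2 : ℝ) : ℂ) by push_cast; rfl,
      ← Complex.ofReal_cpow hsq.le, Real.sqrt_eq_rpow, ← Real.rpow_mul hNr.le]
    norm_num
  have h4 : (((N : ℝ) ^ (-(1 / 4) : ℝ) : ℝ) : ℂ) * (((N : ℝ) ^ (1 / 4 : ℝ) : ℝ) : ℂ) = 1 := by
    rw [← Complex.ofReal_mul, ← Real.rpow_add hNr]
    norm_num
  rw [h2, h3, Complex.ofReal_mul, Complex.ofReal_ofNat]
  calc 2 * (((N : ℝ) ^ (-(1 / 4) : ℝ) : ℝ) : ℂ) *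
        (((Real.sqrt N : ℝ) : ℂ) ^ s * (((N : ℝ) ^ (1 / 4 : ℝ) : ℝ) : ℂ) *
          (2 * (Real.pi : ℂ)) ^ (-(s + 1 / 2)) * Complex.Gamma (s + 1 / 2))
      = ((((N : ℝ) ^ (-(1 / 4) : ℝ) : ℝ) : ℂ) * (((N : ℝ) ^ (1 / 4 : ℝ) : ℝ) : ℂ)) *
        (((Real.sqrt N : ℝ) : ℂ) ^ s *
          (2 * (2 * (Real.pi : ℂ)) ^ (-(s + 1 / 2)) * Complex.Gamma (s + 1 / 2))) := by ring
    _ = _ := by rw [h4, one_mul]

/-- The Dirichlet series. -/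
theorem series_eq {N : ℕ} (f : CuspForm (Gamma0 N : Subgroup (GL (Fin 2) ℝ)) 2) (s : ℂ) :
    ∑' n : ℕ, coef f (n + 1) * ((n + 1 : ℕ) : ℂ) ^ (-(s + 1 / 2)) =
      LSeries (fun n => coef f n / ((Real.sqrt n : ℝ) : ℂ)) s := by
  have hterm : ∀ n : ℕ, LSeries.term (fun n => coef f n / ((Real.sqrt n : ℝ) : ℂ)) s (n + 1) =
      coef f (n + 1) * ((n + 1 : ℕ) : ℂ) ^ (-(s + 1 / 2)) := by
    intro n
    rw [LSeries.term_of_ne_zero (Nat.succ_ne_zero n)]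
    have hpos : (0 : ℝ) < ((n + 1 : ℕ) : ℝ) := by positivity
    have h0 : ((n + 1 : ℕ) : ℂ) ≠ 0 := by exact_mod_cast Nat.succ_ne_zero n
    have h1 : ((Real.sqrt ((n + 1 : ℕ) : ℝ) : ℝ) : ℂ) = ((n + 1 : ℕ) : ℂ) ^ (1 / 2 : ℂ) := by
      rw [Real.sqrt_eq_rpow, Complex.ofReal_cpow hpos.le]
      push_cast
      rfl
    rw [h1, div_div, ← Complex.cpow_add _ _ h0, div_eq_mul_inv, ← Complex.cpow_neg]
    congr 2
    ring
  unfold LSeries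
  have hinj : Function.Injective (fun n : ℕ => n + 1) := fun a b h => Nat.succ_injective h
  rw [← hinj.tsum_eq (f := LSeries.term (fun n => coef f n / ((Real.sqrt n : ℝ) : ℂ)) s) ?_]
  · exact tsum_congr fun n => (hterm n).symm
  · intro n hn
    rcases n with _ | n
    · exfalso
      apply hn
      exact LSeries.term_zero _ _
    · exact ⟨n, rfl⟩

theorem eci (hP : S_PRM) : S_ECI := by
  intro N _ f w hf Λ hΛ hshrt hprim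
  have hN : 0 < N := Nat.pos_of_ne_zero (NeZero.ne N)
  have hNr : (0 : ℝ) < N := by exact_mod_cast hN
  obtain ⟨Λ', hΛ', hfe, hcj, hb⟩ := Pool.Agent.W174.HF.nf1 N f w hf
  have heq : Λ' = Λ := completed_unique hΛ' hΛ
  rw [heq] at hfe hcj hb
  refine ⟨⟨2, ![1 / 2, 3 / 2], Real.sqrt N, fun n => coef f n / ((Real.sqrt n : ℝ) : ℂ),
    fun s => ((2 * (N : ℝ) ^ (-(1 / 4) : ℝ) : ℝ) : ℂ) * Λ (s + 1 / 2), (w : ℂ)⟩, ?_, rfl,
    fun s => rfl⟩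
  constructor
  · exact one_le_two
  · intro j
    fin_cases j <;> norm_num
  · exact Real.sqrt_pos.2 hNr
  · show ‖(w : ℂ)‖ = 1
    rcases hf.sign with h | h <;> rw [h] <;> simp
  · show coef f 1 / ((Real.sqrt ((1 : ℕ) : ℝ) : ℝ) : ℂ) = 1
    rw [hf.one]
    simp
  · intro p n hp hn hpn
    show coef f (p * n) / ((Real.sqrt ((p * n : ℕ) : ℝ) : ℝ) : ℂ) =
      coef f p / ((Real.sqrt (p : ℝ) : ℝ) : ℂ) * (coef f n / ((Real.sqrt (n : ℝ) : ℝ) : ℂ))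
    rw [hf.mul p n ((Nat.Prime.coprime_iff_not_dvd hp).2 hpn), Nat.cast_mul,
      Real.sqrt_mul (Nat.cast_nonneg p), Complex.ofReal_mul, div_mul_div_comm]
  · exact growth f w hf
  · show Differentiable ℂ fun s => ((2 * (N : ℝ) ^ (-(1 / 4) : ℝ) : ℝ) : ℂ) * Λ (s + 1 / 2)
    exact (hΛ.1.comp (differentiable_id.add_const _)).const_mul _
  · intro K
    obtain ⟨M, hM⟩ := hb (-K + 1 / 2) (K + 1 / 2)
    refine ⟨‖((2 * (N : ℝ) ^ (-(1 / 4) : ℝ) : ℝ) : ℂ)‖ * M, fun s hs => ?_⟩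
    show ‖((2 * (N : ℝ) ^ (-(1 / 4) : ℝ) : ℝ) : ℂ) * Λ (s + 1 / 2)‖ ≤ _
    rw [norm_mul]
    refine mul_le_mul_of_nonneg_left (hM _ ?_ ?_) (norm_nonneg _)
    · have h1 : (s + 1 / 2 : ℂ).re = s.re + 1 / 2 := by simp
      rw [h1]
      linarith [(abs_le.1 hs).1]
    · have h1 : (s + 1 / 2 : ℂ).re = s.re + 1 / 2 := by simp
      rw [h1]
      linarith [(abs_le.1 hs).2]
  · refine ⟨2, fun s hs => ?_⟩
    show ((2 * (N : ℝ) ^ (-(1 / 4) : ℝ) : ℝ) : ℂ) * Λ (s + 1 / 2) =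
      ((Real.sqrt N : ℝ) : ℂ) ^ s *
        (∏ j : Fin 2, Gammaℝ (s + ((![1 / 2, 3 / 2] : Fin 2 → ℝ) j : ℝ))) *
        LSeries (fun n => coef f n / ((Real.sqrt n : ℝ) : ℂ)) s
    have h1 : (s + 1 / 2 : ℂ).re = s.re + 1 / 2 := by simp
    rw [hΛ.2 (s + 1 / 2) (by rw [h1]; linarith), series_eq, ← mul_assoc, const_eq hN,
      Fin.prod_univ_two]
    congr 4
    · simp
    · simp
  · intro s
    show ((2 * (N : ℝ) ^ (-(1 / 4) : ℝ) : ℝ) : ℂ) * Λ (1 - s + 1 / 2) =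
      (w : ℂ) * conj (((2 * (N : ℝ) ^ (-(1 / 4) : ℝ) : ℝ) : ℂ) * Λ (conj s + 1 / 2))
    have h1 : conj s + 1 / 2 = conj (s + 1 / 2) := by
      apply Complex.ext <;> simp
    rw [show (1 - s + 1 / 2 : ℂ) = 2 - (s + 1 / 2) by ring, hfe, h1, hcj, map_mul,
      Complex.conj_ofReal, Complex.conj_conj]
    ring
  · exact hshrt
  · exact hP _ hprim

end Pool.Agent.W930.BG
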